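import Mathlib

/-!
# MP_b8546e_an : a strongly non-contractive iterated function system on the line
-/

namespace Pool.Agent.Results.MP_b8546e_an.NonContractiveIFS

open Set Filter Topology Function

/-! ### Definitions -/

/-- The Hutchinson operator `F(B) = ⋃_{f ∈ F} f(B)`. -/
def hutch {X : Type*} (F : Set (X → X)) (B : Set X) : Set X := ⋃ f ∈ F, f '' B

/-- `U` is an open set containing `A`, and `F^k(B) → A` in the Hausdorff metric for every
nonempty compact `B ⊆ U`. -/
def Attracts {X : Type*} [MetricSpace X] (F : Set (X → X)) (A U : Set X) : Prop :=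
  IsOpen U ∧ A ⊆ U ∧ ∀ B : Set X, B.Nonempty → IsCompact B → B ⊆ U →
    Tendsto (fun k => Metric.hausdorffEDist ((hutch F)^[k] B) A) atTop (𝓝 0)

/-- `A` is an attractor of `F`. -/
def IsAttractor {X : Type*} [MetricSpace X] (F : Set (X → X)) (A : Set X) : Prop :=
  A.Nonempty ∧ IsCompact A ∧ hutch F A = A ∧ ∃ U, Attracts F A U

/-- The basin of an attractor. -/
def basin {X : Type*} [MetricSpace X] (F : Set (X → X)) (A : Set X) : Set X :=
  ⋃₀ {U | Attracts F A U}

/-- `Lip(f, d) = sup_{x ≠ y} d(f(x), f(y)) / d(x, y)` in `[0, ∞]`, for the metric `d` of `m`. -/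
noncomputable def Lip {X : Type*} (m : MetricSpace X) (f : X → X) : ENNReal :=
  ⨆ (x : X) (y : X) (_ : x ≠ y), ENNReal.ofReal (m.dist (f x) (f y) / m.dist x y)

/-- The metric `m` induces the given topology. -/
def Induces {X : Type*} (m : MetricSpace X) (τ : TopologicalSpace X) : Prop :=
  m.toPseudoMetricSpace.toUniformSpace.toTopologicalSpace = τ

/-! ### Repelling fixed points -/

theorem lip_gt_one {X : Type*} (m : MetricSpace X) (τ : TopologicalSpace X) (hm : Induces m τ)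
    (f : X → X) (xs : ℕ → X) (p : X) (h0 : xs 0 ≠ p) (hs : ∀ k, f (xs (k + 1)) = xs k)
    (hp : f p = p) (hlim : Tendsto xs atTop (@nhds X τ p)) : 1 < Lip m f := by
  by_contra hcon
  push Not at hcon
  have hle : ∀ x y, m.dist (f x) (f y) ≤ m.dist x y := by
    intro x y
    by_cases hxy : x = y
    · subst hxy
      have e1 : m.dist (f x) (f x) = 0 := @dist_self X m.toPseudoMetricSpace (f x)
      have e2 : m.dist x x = 0 := @dist_self X m.toPseudoMetricSpace x
      rw [e1, e2]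
    · have h1 : ENNReal.ofReal (m.dist (f x) (f y) / m.dist x y) ≤ Lip m f :=
        le_iSup_of_le x (le_iSup_of_le y (le_iSup_of_le hxy (le_refl _)))
      have h2 := h1.trans hcon
      rw [ENNReal.ofReal_le_one] at h2
      have hpos : 0 < m.dist x y := (@dist_pos X m x y).2 hxy
      rwa [div_le_one hpos] at h2
  have hk : ∀ k, m.dist (xs 0) p ≤ m.dist (xs k) p := by
    intro k
    induction k with
    | zero => exact le_refl _
    | succ k ih =>
      have := hle (xs (k + 1)) p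
      rw [hs, hp] at this
      exact ih.trans this
  have hlim' : Tendsto (fun k => m.dist (xs k) p) atTop (𝓝 0) := by
    have e : @nhds X τ p = @nhds X m.toPseudoMetricSpace.toUniformSpace.toTopologicalSpace p := by
      rw [hm]
    rw [e] at hlim
    exact (@tendsto_iff_dist_tendsto_zero X ℕ m.toPseudoMetricSpace xs atTop p).1 hlim
  have h1 : m.dist (xs 0) p ≤ 0 := ge_of_tendsto' hlim' hk
  have h2 : 0 < m.dist (xs 0) p := (@dist_pos X m (xs 0) p).2 h0
  linarith

/-! ### The example -/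

/-- Clamping to `[0,1]`. -/
noncomputable def cl (x : ℝ) : ℝ := max 0 (min 1 x)

/-- The bump. -/
noncomputable def bump (t : ℝ) : ℝ := max 0 (min (6 / 5 * t) (2 / 5 * (1 / 100 - t)))

noncomputable def psi (t : ℝ) : ℝ := bump t - bump (-t)

/-- The first map: `x ↦ 4/5 - 4/5 x`, modified near its fixed point `4/9`, clamped. -/
noncomputable def f1 (x : ℝ) : ℝ := 4 / 5 - 4 / 5 * cl x - psi (cl x - 4 / 9)

/-- The second map: `x ↦ 1 - 4/5 x`, modified near its fixed point `5/9`, clamped. -/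
noncomputable def f2 (x : ℝ) : ℝ := 1 - 4 / 5 * cl x - psi (cl x - 5 / 9)

theorem cl_mem (x : ℝ) : 0 ≤ cl x ∧ cl x ≤ 1 :=
  ⟨le_max_left _ _, max_le zero_le_one (min_le_left _ _)⟩

theorem cl_eq {x : ℝ} (h0 : 0 ≤ x) (h1 : x ≤ 1) : cl x = x := by
  unfold cl
  rw [min_eq_right h1, max_eq_right h0]

theorem bump_nonneg (t : ℝ) : 0 ≤ bump t := le_max_left _ _

theorem bump_le (t : ℝ) : bump t ≤ 3 / 1000 := by
  unfold bump
  refine max_le (by norm_num) ?_
  rcases le_total t (1 / 400) with h | h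
  · exact (min_le_left _ _).trans (by linarith)
  · exact (min_le_right _ _).trans (by linarith)

theorem bump_zero {t : ℝ} (h : t ≤ 0 ∨ 1 / 100 ≤ t) : bump t = 0 := by
  unfold bump
  apply max_eq_left
  rcases h with h | h
  · exact (min_le_left _ _).trans (by linarith)
  · exact (min_le_right _ _).trans (by linarith)

theorem bump_small {t : ℝ} (h0 : 0 ≤ t) (h1 : t ≤ 1 / 400) : bump t = 6 / 5 * t := by
  unfold bump
  rw [min_eq_left (by linarith), max_eq_right (by linarith)]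

theorem psi_abs (t : ℝ) : |psi t| ≤ 3 / 1000 := by
  unfold psi
  have h1 := bump_nonneg t
  have h2 := bump_le t
  have h3 := bump_nonneg (-t)
  have h4 := bump_le (-t)
  rw [abs_le]
  constructor <;> linarith

theorem psi_zero {t : ℝ} (h : t ≤ -(1 / 100) ∨ 1 / 100 ≤ t) : psi t = 0 := by
  unfold psi
  rcases h with h | h
  · rw [bump_zero (Or.inl (by linarith)), bump_zero (Or.inr (by linarith)), sub_zero]
  · rw [bump_zero (Or.inr h), bump_zero (Or.inl (by linarith)), sub_zero]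

theorem psi_small {t : ℝ} (h0 : -(1 / 400) ≤ t) (h1 : t ≤ 1 / 400) : psi t = 6 / 5 * t := by
  unfold psi
  rcases le_total 0 t with h | h
  · rw [bump_small h h1, bump_zero (Or.inl (by linarith)), sub_zero]
  · rw [bump_zero (Or.inl h), bump_small (by linarith) (by linarith)]
    ring

theorem continuous_cl : Continuous cl := continuous_const.max (continuous_const.min continuous_id)

theorem continuous_psi : Continuous psi := by
  unfold psi bump
  fun_prop

theorem continuous_f1 : Continuous f1 := by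
  unfold f1
  exact (continuous_const.sub (continuous_const.mul continuous_cl)).sub
    (continuous_psi.comp (continuous_cl.sub continuous_const))

theorem continuous_f2 : Continuous f2 := by
  unfold f2
  exact (continuous_const.sub (continuous_const.mul continuous_cl)).sub
    (continuous_psi.comp (continuous_cl.sub continuous_const))

theorem f1_mem (x : ℝ) : 0 ≤ f1 x ∧ f1 x ≤ 81 / 100 := by
  obtain ⟨h0, h1⟩ := cl_mem x
  obtain ⟨p1, p2⟩ := abs_le.1 (psi_abs (cl x - 4 / 9))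
  unfold f1
  constructor
  · rcases le_total (1 / 100) (cl x - 4 / 9) with h | h
    · rw [psi_zero (Or.inr h)]; linarith
    · linarith
  · linarith

theorem f2_mem (x : ℝ) : 19 / 100 ≤ f2 x ∧ f2 x ≤ 1 := by
  obtain ⟨h0, h1⟩ := cl_mem x
  obtain ⟨p1, p2⟩ := abs_le.1 (psi_abs (cl x - 5 / 9))
  unfold f2
  constructor
  · linarith
  · rcases le_total (cl x - 5 / 9) (-(1 / 100)) with h | h
    · rw [psi_zero (Or.inl h)]; linarith
    · linarith

/-- The iterated function system. -/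
noncomputable def IFS : Set (ℝ → ℝ) := {f1, f2}

theorem mem_hutch {B : Set ℝ} {y : ℝ} : y ∈ hutch IFS B ↔ (∃ x ∈ B, f1 x = y) ∨ ∃ x ∈ B, f2 x = y := by
  unfold hutch IFS
  simp

theorem hutch_mono {B C : Set ℝ} (h : B ⊆ C) : hutch IFS B ⊆ hutch IFS C := by
  intro y hy
  rw [mem_hutch] at *
  rcases hy with ⟨x, hx, e⟩ | ⟨x, hx, e⟩
  · exact Or.inl ⟨x, h hx, e⟩
  · exact Or.inr ⟨x, h hx, e⟩

theorem hutch_iter_mono (k : ℕ) {B C : Set ℝ} (h : B ⊆ C) :
    (hutch IFS)^[k] B ⊆ (hutch IFS)^[k] C := by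
  induction k with
  | zero => exact h
  | succ k ih =>
    rw [iterate_succ_apply', iterate_succ_apply']
    exact hutch_mono ih

theorem hutch_subset (B : Set ℝ) : hutch IFS B ⊆ Icc 0 1 := by
  intro y hy
  rcases mem_hutch.1 hy with ⟨x, _, rfl⟩ | ⟨x, _, rfl⟩
  · exact ⟨(f1_mem x).1, by linarith [(f1_mem x).2]⟩
  · exact ⟨by linarith [(f2_mem x).1], (f2_mem x).2⟩

theorem iter_subset (k : ℕ) {B : Set ℝ} (hB : B ⊆ Icc 0 1) :
    (hutch IFS)^[k] B ⊆ Icc 0 1 := by
  cases k with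
  | zero => exact hB
  | succ k => rw [iterate_succ_apply']; exact hutch_subset _

theorem hutch_A : hutch IFS (Icc 0 1) = Icc 0 1 := by
  apply Subset.antisymm (hutch_subset _)
  intro y hy
  rw [mem_hutch]
  have e0 : cl 0 = 0 := cl_eq (le_refl _) zero_le_one
  have e1 : cl 1 = 1 := cl_eq zero_le_one (le_refl _)
  rcases le_total y (4 / 5) with h | h
  · left
    have v0 : f1 0 = 4 / 5 := by
      unfold f1
      rw [e0, psi_zero (Or.inl (by norm_num))]; norm_num
    have v1 : f1 1 = 0 := by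
      unfold f1
      rw [e1, psi_zero (Or.inr (by norm_num))]; norm_num
    have hmem : y ∈ Icc (f1 1) (f1 0) := by rw [v0, v1]; exact ⟨hy.1, h⟩
    obtain ⟨x, hx, e⟩ := intermediate_value_Icc' zero_le_one continuous_f1.continuousOn hmem
    exact ⟨x, hx, e⟩
  · right
    have v0 : f2 0 = 1 := by
      unfold f2
      rw [e0, psi_zero (Or.inl (by norm_num))]; norm_num
    have v1 : f2 1 = 1 / 5 := by
      unfold f2
      rw [e1, psi_zero (Or.inr (by norm_num))]; norm_num
    have hmem : y ∈ Icc (f2 1) (f2 0) := by rw [v0, v1]; exact ⟨by linarith, hy.2⟩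
    obtain ⟨x, hx, e⟩ := intermediate_value_Icc' zero_le_one continuous_f2.continuousOn hmem
    exact ⟨x, hx, e⟩

/-- Approximate density. -/
theorem approx (k : ℕ) (b : ℝ) (hb : b ∈ Icc (0 : ℝ) 1) (z : ℝ) (hz : z ∈ Icc (0 : ℝ) 1) :
    ∃ y ∈ (hutch IFS)^[k] {b}, |y - z| ≤ (4 / 5) ^ k + 15 / 1000 := by
  induction k generalizing z with
  | zero =>
    refine ⟨b, rfl, ?_⟩
    rw [pow_zero, abs_le]
    constructor
    · linarith [hb.1, hz.2]
    · linarith [hb.2, hz.1]
  | succ k ih =>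
    rw [iterate_succ_apply']
    rcases le_total z (4 / 5) with h | h
    · obtain ⟨y, hy, hyz⟩ := ih (1 - 5 / 4 * z) ⟨by linarith, by linarith [hz.1]⟩
      have hyI := iter_subset k (by rw [singleton_subset_iff]; exact hb) hy
      refine ⟨f1 y, mem_hutch.2 (Or.inl ⟨y, hy, rfl⟩), ?_⟩
      obtain ⟨p1, p2⟩ := abs_le.1 (psi_abs (cl y - 4 / 9))
      obtain ⟨q1, q2⟩ := abs_le.1 hyz
      unfold f1
      rw [cl_eq hyI.1 hyI.2] at *
      rw [pow_succ, abs_le]
      constructor <;> linarith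
    · obtain ⟨y, hy, hyz⟩ := ih (5 / 4 * (1 - z)) ⟨by linarith [hz.2], by linarith⟩
      have hyI := iter_subset k (by rw [singleton_subset_iff]; exact hb) hy
      refine ⟨f2 y, mem_hutch.2 (Or.inr ⟨y, hy, rfl⟩), ?_⟩
      obtain ⟨p1, p2⟩ := abs_le.1 (psi_abs (cl y - 5 / 9))
      obtain ⟨q1, q2⟩ := abs_le.1 hyz
      unfold f2
      rw [cl_eq hyI.1 hyI.2] at *
      rw [pow_succ, abs_le]
      constructor <;> linarith

/-- All orbits of sets hit all intervals of length `δ` after a uniform time. -/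
def Hits (δ : ℝ) : Prop := ∃ k0 : ℕ, ∀ k, k0 ≤ k → ∀ b ∈ Icc (0 : ℝ) 1, ∀ u : ℝ, 0 ≤ u →
  u + δ ≤ 1 → ∃ y ∈ (hutch IFS)^[k] {b}, u ≤ y ∧ y ≤ u + δ

theorem hits_base : Hits (1 / 25) := by
  obtain ⟨k0, hk0⟩ := exists_pow_lt_of_lt_one (show (0 : ℝ) < 5 / 1000 by norm_num)
    (show (4 / 5 : ℝ) < 1 by norm_num)
  refine ⟨k0, fun k hk b hb u hu hu1 => ?_⟩
  obtain ⟨y, hy, hyz⟩ := approx k b hb (u + 1 / 50) ⟨by linarith, by linarith⟩
  have hpow : (4 / 5 : ℝ) ^ k ≤ (4 / 5) ^ k0 :=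
    pow_le_pow_of_le_one (by norm_num) (by norm_num) hk
  obtain ⟨q1, q2⟩ := abs_le.1 hyz
  exact ⟨y, hy, by linarith, by linarith⟩

theorem hits_step {δ : ℝ} (hδ0 : 0 < δ) (hδ : δ ≤ 1 / 25) (h : Hits δ) : Hits (4 / 5 * δ) := by
  obtain ⟨k0, hk0⟩ := h
  refine ⟨k0 + 1, fun k hk b hb u hu hu1 => ?_⟩
  obtain ⟨k, rfl⟩ : ∃ k', k = k' + 1 := ⟨k - 1, by omega⟩
  have hk' : k0 ≤ k := by omega
  rw [iterate_succ_apply']
  have case1 : u + 4 / 5 * δ ≤ 4 / 5 → (u + 4 / 5 * δ < 4 / 9 - 1 / 100 ∨ 4 / 9 + 1 / 100 < u) →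
      ∃ y ∈ hutch IFS ((hutch IFS)^[k] {b}), u ≤ y ∧ y ≤ u + 4 / 5 * δ := by
    intro h1 h2
    obtain ⟨y, hy, y1, y2⟩ := hk0 k hk' b hb (1 - 5 / 4 * (u + 4 / 5 * δ)) (by linarith)
      (by linarith)
    have hyI := iter_subset k (by rw [singleton_subset_iff]; exact hb) hy
    refine ⟨f1 y, mem_hutch.2 (Or.inl ⟨y, hy, rfl⟩), ?_⟩
    have hpsi : psi (y - 4 / 9) = 0 := by
      apply psi_zero
      rcases h2 with h2 | h2
      · right; linarith
      · left; linarith
    unfold f1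
    rw [cl_eq hyI.1 hyI.2, hpsi]
    constructor <;> linarith
  have case2 : 1 / 5 ≤ u → (u + 4 / 5 * δ < 5 / 9 - 1 / 100 ∨ 5 / 9 + 1 / 100 < u) →
      ∃ y ∈ hutch IFS ((hutch IFS)^[k] {b}), u ≤ y ∧ y ≤ u + 4 / 5 * δ := by
    intro h1 h2
    obtain ⟨y, hy, y1, y2⟩ := hk0 k hk' b hb (5 / 4 * (1 - (u + 4 / 5 * δ))) (by linarith)
      (by linarith)
    have hyI := iter_subset k (by rw [singleton_subset_iff]; exact hb) hy
    refine ⟨f2 y, mem_hutch.2 (Or.inr ⟨y, hy, rfl⟩), ?_⟩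
    have hpsi : psi (y - 5 / 9) = 0 := by
      apply psi_zero
      rcases h2 with h2 | h2
      · right; linarith
      · left; linarith
    unfold f2
    rw [cl_eq hyI.1 hyI.2, hpsi]
    constructor <;> linarith
  rcases lt_or_ge (4 / 5) (u + 4 / 5 * δ) with h1 | h1
  · exact case2 (by linarith) (Or.inr (by linarith))
  · rcases lt_or_ge u (1 / 5) with h2 | h2
    · exact case1 h1 (Or.inl (by linarith))
    · rcases lt_or_ge (4 / 9 + 1 / 100) u with h3 | h3
      · exact case1 h1 (Or.inr h3)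
      · exact case2 h2 (Or.inl (by linarith))

theorem hits_all (δ : ℝ) (hδ : 0 < δ) : Hits δ := by
  have hm : ∀ m : ℕ, Hits ((4 / 5) ^ m * (1 / 25)) := by
    intro m
    induction m with
    | zero => simpa using hits_base
    | succ m ih =>
      have h1 : (4 / 5 : ℝ) ^ m ≤ 1 := pow_le_one₀ (by norm_num) (by norm_num)
      have h0 : (0 : ℝ) < (4 / 5) ^ m := by positivity
      have := hits_step (δ := (4 / 5) ^ m * (1 / 25)) (by positivity) (by linarith) ih
      have e : (4 / 5 : ℝ) ^ (m + 1) * (1 / 25) = 4 / 5 * ((4 / 5) ^ m * (1 / 25)) := by ring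
      rw [e]
      exact this
  obtain ⟨m, hmδ⟩ := exists_pow_lt_of_lt_one (show (0 : ℝ) < min δ 1 by positivity)
    (show (4 / 5 : ℝ) < 1 by norm_num)
  have h0 : (0 : ℝ) < (4 / 5) ^ m := by positivity
  obtain ⟨k0, hk0⟩ := hm m
  refine ⟨k0, fun k hk b hb u hu hu1 => ?_⟩
  have hle : (4 / 5 : ℝ) ^ m * (1 / 25) ≤ δ := by
    have := min_le_left δ 1
    nlinarith
  obtain ⟨y, hy, y1, y2⟩ := hk0 k hk b hb u hu (by linarith)
  exact ⟨y, hy, y1, by linarith⟩

theorem attracts : Attracts IFS (Icc 0 1) univ := by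
  refine ⟨isOpen_univ, subset_univ _, fun B hB _ _ => ?_⟩
  rw [ENNReal.tendsto_atTop_zero]
  intro ε hε
  obtain ⟨δ, hδ0, hδ1, hδε⟩ : ∃ δ : ℝ, 0 < δ ∧ δ ≤ 1 ∧ ENNReal.ofReal δ ≤ ε := by
    rcases eq_or_ne ε ⊤ with h | h
    · exact ⟨1, one_pos, le_refl _, by rw [h]; exact le_top⟩
    · refine ⟨min ε.toReal 1, lt_min (ENNReal.toReal_pos hε.ne' h) one_pos, min_le_right _ _, ?_⟩
      calc ENNReal.ofReal (min ε.toReal 1) ≤ ENNReal.ofReal ε.toReal :=
            ENNReal.ofReal_le_ofReal (min_le_left _ _)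
        _ = ε := ENNReal.ofReal_toReal h
  obtain ⟨k0, hk0⟩ := hits_all δ hδ0
  refine ⟨k0 + 1, fun k hk => ?_⟩
  obtain ⟨k, rfl⟩ : ∃ k', k = k' + 1 := ⟨k - 1, by omega⟩
  obtain ⟨b, hb⟩ := hB
  have hb1 : f1 b ∈ hutch IFS B := mem_hutch.2 (Or.inl ⟨b, hb, rfl⟩)
  have hsub : (hutch IFS)^[k] {f1 b} ⊆ (hutch IFS)^[k + 1] B := by
    rw [iterate_succ_apply]
    exact hutch_iter_mono k (by rw [singleton_subset_iff]; exact hb1)
  have hsub2 : (hutch IFS)^[k + 1] B ⊆ Icc 0 1 := by
    rw [iterate_succ_apply']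
    exact hutch_subset _
  refine (Metric.hausdorffEDist_le_of_mem_edist (r := ENNReal.ofReal δ) ?_ ?_).trans hδε
  · intro x hx
    exact ⟨x, hsub2 hx, by rw [edist_self]; exact bot_le⟩
  · intro z hz
    have hfb : f1 b ∈ Icc (0 : ℝ) 1 := hutch_subset _ hb1
    rcases le_total (z + δ) 1 with h | h
    · obtain ⟨y, hy, y1, y2⟩ := hk0 k (by omega) (f1 b) hfb z hz.1 h
      refine ⟨y, hsub hy, ?_⟩
      rw [edist_dist, Real.dist_eq]
      apply ENNReal.ofReal_le_ofReal
      rw [abs_le]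
      constructor <;> linarith
    · obtain ⟨y, hy, y1, y2⟩ := hk0 k (by omega) (f1 b) hfb (1 - δ) (by linarith) (by linarith)
      refine ⟨y, hsub hy, ?_⟩
      rw [edist_dist, Real.dist_eq]
      apply ENNReal.ofReal_le_ofReal
      rw [abs_le]
      constructor <;> linarith [hz.2]

theorem isAttractor : IsAttractor IFS (Icc 0 1) :=
  ⟨⟨0, by norm_num⟩, isCompact_Icc, hutch_A, univ, attracts⟩

theorem basin_eq : basin IFS (Icc 0 1) = univ :=
  eq_univ_of_univ_subset (subset_sUnion_of_mem attracts)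

theorem minimal {G : Set (ℝ → ℝ)} (hG : G ⊂ IFS) : ¬ IsAttractor G (Icc 0 1) := by
  rintro ⟨-, -, hA, -⟩
  obtain ⟨hsub, hne⟩ := hG
  have hmiss : f1 ∉ G ∨ f2 ∉ G := by
    by_contra hcon
    push Not at hcon
    apply hne
    rintro f (rfl | rfl)
    · exact hcon.1
    · exact hcon.2
  rcases hmiss with h | h
  · have h0 : (0 : ℝ) ∈ hutch G (Icc 0 1) := by rw [hA]; norm_num
    obtain ⟨f, hf, x, _, hx⟩ := mem_iUnion₂.1 h0
    have : f = f2 := by
      rcases hsub hf with rfl | rfl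
      · exact absurd hf h
      · rfl
    rw [this] at hx
    linarith [(f2_mem x).1]
  · have h0 : (1 : ℝ) ∈ hutch G (Icc 0 1) := by rw [hA]; norm_num
    obtain ⟨f, hf, x, _, hx⟩ := mem_iUnion₂.1 h0
    have : f = f1 := by
      rcases hsub hf with rfl | rfl
      · rfl
      · exact absurd hf h
    rw [this] at hx
    linarith [(f1_mem x).2]

theorem tendsto_seq (p : ℝ) :
    Tendsto (fun k : ℕ => p + 1 / 400 * (-(1 / 2)) ^ k) atTop (𝓝 p) := by
  have h : Tendsto (fun k : ℕ => (-(1 / 2) : ℝ) ^ k) atTop (𝓝 0) :=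
    tendsto_pow_atTop_nhds_zero_of_abs_lt_one (by rw [abs_neg, abs_of_pos] <;> norm_num)
  have := (h.const_mul (1 / 400)).const_add p
  simpa using this

theorem pow_bound (k : ℕ) : |((-(1 / 2)) ^ k : ℝ)| ≤ 1 := by
  rw [abs_pow]
  apply pow_le_one₀ (abs_nonneg _)
  rw [abs_neg, abs_of_pos] <;> norm_num

theorem lip_f1 (m : MetricSpace ℝ) (hm : Induces m inferInstance) : 1 < Lip m f1 := by
  refine lip_gt_one m _ hm f1 (fun k => 4 / 9 + 1 / 400 * (-(1 / 2)) ^ k) (4 / 9) ?_ ?_ ?_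
    (tendsto_seq _)
  · simp
  · intro k
    obtain ⟨a1, a2⟩ := abs_le.1 (pow_bound (k + 1))
    show f1 (4 / 9 + 1 / 400 * (-(1 / 2)) ^ (k + 1)) = _
    unfold f1
    rw [cl_eq (by linarith) (by linarith), psi_small (by linarith) (by linarith), pow_succ]
    ring
  · unfold f1
    rw [cl_eq (by norm_num) (by norm_num), psi_small (by norm_num) (by norm_num)]
    norm_num

theorem lip_f2 (m : MetricSpace ℝ) (hm : Induces m inferInstance) : 1 < Lip m f2 := by
  refine lip_gt_one m _ hm f2 (fun k => 5 / 9 + 1 / 400 * (-(1 / 2)) ^ k) (5 / 9) ?_ ?_ ?_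
    (tendsto_seq _)
  · simp
  · intro k
    obtain ⟨a1, a2⟩ := abs_le.1 (pow_bound (k + 1))
    show f2 (5 / 9 + 1 / 400 * (-(1 / 2)) ^ (k + 1)) = _
    unfold f2
    rw [cl_eq (by linarith) (by linarith), psi_small (by linarith) (by linarith), pow_succ]
    ring
  · unfold f2
    rw [cl_eq (by norm_num) (by norm_num), psi_small (by norm_num) (by norm_num)]
    norm_num

/-- There is an iterated function system `F` on the real line (a finite set of continuous maps)
with an attractor `A` whose basin is the whole line, such that no proper subset of `F` has `A` as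
an attractor, and `Lip(f, d) > 1` for every `f ∈ F` and every metric `d` inducing the standard
topology. -/
theorem result : ∃ (F : Set (ℝ → ℝ)) (A : Set ℝ), F.Finite ∧ (∀ f ∈ F, Continuous f) ∧
    IsAttractor F A ∧ basin F A = univ ∧ (∀ G, G ⊂ F → ¬ IsAttractor G A) ∧
    ∀ m : MetricSpace ℝ, Induces m inferInstance → ∀ f ∈ F, 1 < Lip m f := by
  refine ⟨IFS, Icc 0 1, by unfold IFS; exact Set.toFinite _, ?_, isAttractor, basin_eq, fun G hG => minimal hG, ?_⟩
  · rintro f (rfl | rfl)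
    · exact continuous_f1
    · exact continuous_f2
  · rintro m hm f (rfl | rfl)
    · exact lip_f1 m hm
    · exact lip_f2 m hm

end Pool.Agent.Results.MP_b8546e_an.NonContractiveIFS
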